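import Mathlib

set_option autoImplicit false

namespace Pool.Agent.H.MP_bf37ff_pr

open MeasureTheory ProbabilityTheory Set Filter Topology
open scoped ENNReal NNReal

noncomputable abbrev U : Measure ℝ := volume.restrict (Ico 0 1)

instance : IsProbabilityMeasure U := ⟨by simp⟩

theorem sym {ι Ω : Type} [Fintype ι] [MeasurableSpace Ω] (P : Measure Ω) [IsProbabilityMeasure P]
    (n : ℕ) (hn : 0 < n) (hι : Fintype.card ι = n) (X : ι → Ω → ℝ) (hX : ∀ i, Measurable (X i))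
    (μ : Measure ℝ) (hμ : ∀ s, MeasurableSet s → ∑ i, P (X i ⁻¹' s) = n * μ s) (c : ℝ)
    (hc : ∀ᵐ ω ∂P, ∑ i, X i ω = c) :
    ∃ ν : Measure (Fin n → ℝ), IsProbabilityMeasure ν ∧
      (∀ i : Fin n, ν.map (fun x => x i) = μ) ∧ ∃ c : ℝ, ∀ᵐ x ∂ν, ∑ i, x i = c := by
  have : NeZero n := ⟨hn.ne'⟩
  let e : Fin n ≃ ι := (Fintype.equivFinOfCardEq hι).symm
  let Z : Fin n → Ω → Fin n → ℝ := fun a ω i => X (e (i + a)) ω
  have hZ : ∀ a, Measurable (Z a) := fun a => measurable_pi_lambda _ fun i => hX _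
  have hn' : (n : ℝ≥0∞) ≠ 0 := by simp [hn.ne']
  refine ⟨(n : ℝ≥0∞)⁻¹ • ∑ a, P.map (Z a), ⟨?_⟩, fun i => ?_, c, ?_⟩
  · simp [Measure.finsetSum_apply, Measure.map_apply (hZ _), ENNReal.inv_mul_cancel hn']
  · ext s hs
    rw [Measure.map_apply (measurable_pi_apply i) hs, Measure.smul_apply,
      Measure.finsetSum_apply, smul_eq_mul]
    have : ∑ a, P.map (Z a) ((fun x => x i) ⁻¹' s) = ∑ j, P (X j ⁻¹' s) := by
      rw [← ((Equiv.addLeft i).trans e).sum_comp]
      refine Finset.sum_congr rfl fun a _ => ?_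
      rw [Measure.map_apply (hZ _) (measurable_pi_apply i hs)]
      rfl
    rw [this, hμ s hs, ← mul_assoc, ENNReal.inv_mul_cancel hn' (by simp), one_mul]
  · refine Measure.ae_smul_measure ?_ _
    rw [ae_finsetSum_measure_iff]
    intro a _
    rw [ae_map_iff (hZ a).aemeasurable (measurableSet_eq_fun (by fun_prop) measurable_const)]
    filter_upwards [hc] with ω hω
    rw [← hω, ← ((Equiv.addRight a).trans e).sum_comp]
    rfl

theorem quant (G : Measure ℝ) [IsProbabilityMeasure G] (a b : ℝ) (hab : a ≤ b)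
    (hG : G (Icc a b)ᶜ = 0) :
    ∃ Q : ℝ → ℝ, Monotone Q ∧ (∀ u, Q u ∈ Icc a b) ∧ U.map Q = G := by
  let A : ℝ → Set ℝ := fun u => {x | a ≤ x ∧ (u ≤ cdf G x ∨ b ≤ x)}
  have hne : ∀ u, (A u).Nonempty := fun u => ⟨b, hab, Or.inr le_rfl⟩
  have hbd : ∀ u, BddBelow (A u) := fun u => ⟨a, fun x hx => hx.1⟩
  have hmono : Monotone fun u => sInf (A u) := fun u v huv =>
    csInf_le_csInf (hbd u) (hne v) fun x hx => ⟨hx.1, hx.2.imp_left huv.trans⟩
  have hle : ∀ u x, sInf (A u) ≤ x ↔ x ∈ A u := by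
    intro u x
    refine ⟨fun h => ⟨(le_csInf (hne u) fun y hy => hy.1).trans h, ?_⟩, csInf_le (hbd u)⟩
    by_cases hb : b ≤ x
    · exact Or.inr hb
    left
    have h1 := continuousWithinAt_Ioi_iff_Ici.mpr ((cdf G).right_continuous x)
    refine ge_of_tendsto h1 ?_
    filter_upwards [Ioo_mem_nhdsGT (not_le.1 hb)] with y hy
    obtain ⟨z, hz, hzy⟩ := exists_lt_of_csInf_lt (hne u) (h.trans_lt hy.1)
    rcases hz.2 with h2 | h2
    · exact h2.trans (monotone_cdf G hzy.le)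
    · linarith [hy.2]
  refine ⟨fun u => sInf (A u), hmono, fun u => ⟨le_csInf (hne u) fun y hy => hy.1,
    csInf_le (hbd u) ⟨hab, Or.inr le_rfl⟩⟩, ?_⟩
  have : IsProbabilityMeasure (U.map fun u => sInf (A u)) :=
    Measure.isProbabilityMeasure_map hmono.measurable.aemeasurable
  refine Measure.ext_of_Iic _ _ fun x => ?_
  rw [Measure.map_apply hmono.measurable measurableSet_Iic]
  have e : (fun u => sInf (A u)) ⁻¹' Iic x = {u | a ≤ x ∧ (u ≤ cdf G x ∨ b ≤ x)} := by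
    ext u; exact hle u x
  rw [e]
  by_cases h1 : a ≤ x
  · by_cases h2 : b ≤ x
    · have : G (Iic x) = 1 := by
        rw [← prob_compl_eq_zero_iff measurableSet_Iic]
        exact measure_mono_null (compl_subset_compl.2 fun y hy => hy.2.trans h2) hG
      simp [h1, h2, this]
    · have e2 : {u | a ≤ x ∧ (u ≤ cdf G x ∨ b ≤ x)} = Iic (cdf G x) := by
        ext u; simp [h1, h2]
      rw [e2, U, Measure.restrict_congr_set Ico_ae_eq_Icc, Measure.restrict_apply measurableSet_Iic,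
        ← ofReal_cdf]
      have : Iic (cdf G x) ∩ Icc 0 1 = Icc 0 (cdf G x) := by
        ext u
        simp only [mem_inter_iff, mem_Iic, mem_Icc]
        exact ⟨fun h => ⟨h.2.1, h.1⟩, fun h => ⟨h.2, h.1, h.2.trans (cdf_le_one G x)⟩⟩
      rw [this]; simp
  · have : G (Iic x) = 0 :=
      measure_mono_null (fun y hy (h : y ∈ Icc a b) => h1 (h.1.trans hy)) hG
    simp [h1, this]

theorem shift (F : ℝ → ℝ≥0∞) (t : ℝ) : ∫⁻ u, F (t + u) ∂U = ∫⁻ y in Ico t (t + 1), F y := by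
  rw [← (measurePreserving_add_left volume t).setLIntegral_comp_preimage_emb
    (measurableEmbedding_addLeft t) F]
  simp

theorem rot (k : ℕ) (hk : 0 < k) (f : ℝ → ℝ≥0∞) :
    ∑ i ∈ Finset.range k, ∫⁻ u, f ((i + u) * (k : ℝ)⁻¹) ∂U = k * ∫⁻ u, f u ∂U := by
  have h1 : ∀ (F : ℝ → ℝ≥0∞) (m : ℕ),
      ∑ i ∈ Finset.range m, ∫⁻ u, F (i + u) ∂U = ∫⁻ y in Ico (0 : ℝ) m, F y := by
    intro F m
    induction m with
    | zero => simp
    | succ m ih =>
      rw [Finset.sum_range_succ, ih, shift, ← lintegral_union measurableSet_Ico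
        (Set.disjoint_left.2 fun y h1 h2 => absurd h1.2 (not_lt.2 h2.1)),
        Ico_union_Ico_eq_Ico (by positivity) (by linarith)]
      simp
  have hk' : (0 : ℝ) < k := by exact_mod_cast hk
  have h2 : MeasurePreserving (fun y : ℝ => y * (k : ℝ)⁻¹) volume ((k : ℝ≥0∞) • volume) :=
    ⟨by fun_prop, by rw [Real.map_volume_mul_right (by positivity)]; simp⟩
  have h3 := h2.setLIntegral_comp_preimage_emb
    (Homeomorph.mulRight₀ (k : ℝ)⁻¹ (by positivity)).measurableEmbedding f (Ico 0 1)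
  rw [h1 (fun y => f (y * (k : ℝ)⁻¹)), ← smul_eq_mul, ← lintegral_smul_measure,
    ← Measure.restrict_smul, ← h3]
  congr 2
  ext y
  simp only [mem_Ico, mem_preimage, ← div_eq_mul_inv, le_div_iff₀ hk', div_lt_one hk', zero_mul]

theorem refl (f : ℝ → ℝ≥0∞) : ∫⁻ u, f (1 - u) ∂U = ∫⁻ u, f u ∂U := by
  have := (Measure.measurePreserving_sub_left volume (1 : ℝ)).setLIntegral_comp_preimage_emb
    (Homeomorph.subLeft (1 : ℝ)).measurableEmbedding f (Ioc 0 1)
  rw [Measure.restrict_congr_set Ico_ae_eq_Ioc.symm (s := Ioc (0 : ℝ) 1)] at this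
  rw [← this, U]
  congr 2
  ext y
  simp only [mem_Ico, mem_preimage, mem_Ioc]
  constructor <;> rintro ⟨h1, h2⟩ <;> constructor <;> linarith

theorem frac (f : ℝ → ℝ≥0∞) (t : ℝ) : ∫⁻ u, f (Int.fract (u - t)) ∂U = ∫⁻ u, f u ∂U := by
  have h1 := shift (fun y => f (Int.fract y)) (-t)
  simp only [neg_add_eq_sub] at h1
  have h2 := (isAddFundamentalDomain_Ioc one_pos (-t)).setLIntegral_eq
    (isAddFundamentalDomain_Ioc one_pos 0) (fun y => f (Int.fract y)) (by
      rintro ⟨g, z, rfl⟩ x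
      simp [AddSubgroup.vadd_def])
  rw [h1, ← neg_add_eq_sub, Measure.restrict_congr_set Ico_ae_eq_Ioc, h2, zero_add,
    ← Measure.restrict_congr_set Ico_ae_eq_Ioc]
  exact setLIntegral_congr_fun measurableSet_Ico fun y hy => by rw [Int.fract_eq_self.2 hy]

end Pool.Agent.H.MP_bf37ff_pr
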