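import Pool.Agent.H.MP_bf37ff_pr.A

set_option autoImplicit false

namespace Pool.Agent.H.MP_bf37ff_pr

open MeasureTheory ProbabilityTheory Set Filter Topology unitInterval
open scoped ENNReal NNReal

theorem exists_level (μ : Measure ℝ) [IsProbabilityMeasure μ] (hμ : μ ≪ volume) :
    ∃ (m : ℕ) (A : Set ℝ), MeasurableSet A ∧ volume A ≠ 0 ∧
      ∀ s, MeasurableSet s → volume (s ∩ A) ≤ m * μ s := by
  let f := μ.rnDeriv volume
  have hf : Measurable f := Measure.measurable_rnDeriv _ _
  have hA : ∀ m : ℕ, MeasurableSet {x | 1 ≤ m * f x} := fun m =>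
    measurableSet_le measurable_const (by fun_prop)
  by_contra hcon
  push Not at hcon
  have h0 : ∀ m : ℕ, volume {x | 1 ≤ m * f x} = 0 := by
    intro m
    by_contra hne
    obtain ⟨s, hs, hlt⟩ := hcon m _ (hA m) hne
    refine absurd hlt (not_lt.2 ?_)
    calc volume (s ∩ {x | 1 ≤ m * f x}) = ∫⁻ _ in s ∩ {x | 1 ≤ m * f x}, 1 := by simp
      _ ≤ ∫⁻ x in s ∩ {x | 1 ≤ m * f x}, m * f x :=
          setLIntegral_mono' (hs.inter (hA m)) fun x hx => hx.2
      _ ≤ ∫⁻ x in s, m * f x := lintegral_mono_set inter_subset_left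
      _ = m * μ s := by
          rw [lintegral_const_mul _ hf, Measure.setLIntegral_rnDeriv hμ]
  have h1 : μ (⋃ m : ℕ, {x | 1 ≤ m * f x}) = 0 := hμ (measure_iUnion_null h0)
  have h2 : ∀ᵐ x ∂μ, False := by
    filter_upwards [Measure.rnDeriv_pos hμ, measure_eq_zero_iff_ae_notMem.1 h1] with x hx hx'
    obtain ⟨m, hm⟩ := ENNReal.exists_nat_mul_gt (b := 1) hx.ne' (by simp)
    exact hx' (mem_iUnion.2 ⟨m, hm.le⟩)
  exact h2.exists.elim fun _ h => h

theorem exists_dense (A : Set ℝ) (h0 : volume A ≠ 0) :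
    ∃ x r : ℝ, 0 < r ∧ ENNReal.ofReal (9 / 5 * r) ≤ volume (A ∩ Metric.closedBall x r) := by
  have : NeBot (ae (volume.restrict A)) := ae_restrict_neBot.2 h0
  obtain ⟨x, hx⟩ := (Besicovitch.ae_tendsto_measure_inter_div volume A).exists
  have h1 : ENNReal.ofReal (9 / 10) < 1 := by rw [ENNReal.ofReal_lt_one]; norm_num
  obtain ⟨r, hr, hr0⟩ := ((hx.eventually (lt_mem_nhds h1)).and self_mem_nhdsWithin).exists
  have hr0 : 0 < r := hr0
  refine ⟨x, r, hr0, ?_⟩
  rw [Real.volume_closedBall, ENNReal.lt_div_iff_mul_lt (by simp) (by simp),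
    ← ENNReal.ofReal_mul (by norm_num)] at hr
  rwa [show 9 / 5 * r = 9 / 10 * (2 * r) by ring, le_iff_lt_or_eq, or_iff_left hr.ne]

theorem split (μ : Measure ℝ) [IsProbabilityMeasure μ] (hμ : μ ≪ volume) :
    ∃ (j h : ℝ) (C : ℕ) (φ : Bool → ℝ × I → ℝ), 0 < h ∧ (∀ b, Measurable (φ b)) ∧
      (∀ b x s, MeasurableSet s → volume {w : I | φ b (x, w) ∈ s} ≤ C * μ s) ∧
      ∀ x ∈ Icc (0 : ℝ) 2, ∀ w, φ true (x, w) + φ false (x, w) = j + h * x := by
  obtain ⟨m, A, hA, hA0, hAm⟩ := exists_level μ hμ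
  obtain ⟨x0, r, hr, hK⟩ := exists_dense A hA0
  set K := A ∩ Metric.closedBall x0 r with hKdef
  have hKm : MeasurableSet K := hA.inter measurableSet_closedBall
  let sg : ℝ → ℝ := fun x => 2 * x0 + r / 10 * max 0 (min 2 x)
  have hsg : Measurable sg := by fun_prop
  let D : ℝ → Set ℝ := fun x => K ∩ (fun y => sg x - y) ⁻¹' K
  have hDm : ∀ x, MeasurableSet (D x) := fun x => hKm.inter (hKm.preimage (by fun_prop))
  have hDfin : ∀ x, volume (D x) ≠ ∞ := fun x => ne_top_of_le_ne_top
    (measure_closedBall_lt_top (x := x0) (r := r)).ne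
    (measure_mono (inter_subset_left.trans inter_subset_right))
  have hD : ∀ x, ENNReal.ofReal r ≤ volume (D x) := by
    intro x
    have h1 := measure_union_add_inter (μ := volume) K (hKm.preimage (f := fun y => sg x - y)
      (by fun_prop))
    rw [(Measure.measurePreserving_sub_left volume (sg x)).measure_preimage
      hKm.nullMeasurableSet] at h1
    have h2 : K ∪ (fun y => sg x - y) ⁻¹' K ⊆ Icc (x0 - r) (x0 + 6 / 5 * r) := by
      have a1 : 0 ≤ max 0 (min 2 x) := le_max_left _ _
      have a2 : max 0 (min 2 x) ≤ 2 := max_le (by norm_num) (min_le_left _ _)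
      rintro y (hy | hy)
      · have := hy.2
        rw [Real.closedBall_eq_Icc] at this
        exact ⟨this.1, by linarith [this.2]⟩
      · have := hy.2
        rw [Real.closedBall_eq_Icc] at this
        simp only [sg, mem_Icc] at this
        constructor <;> nlinarith [this.1, this.2]
    have h3 := measure_mono (μ := volume) h2
    rw [Real.volume_Icc] at h3
    have h4 : ENNReal.ofReal (9 / 5 * r) + ENNReal.ofReal (9 / 5 * r) ≤
        ENNReal.ofReal (x0 + 6 / 5 * r - (x0 - r)) + volume (D x) :=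
      (add_le_add hK hK).trans (h1.symm.le.trans (add_le_add h3 le_rfl))
    refine (ENNReal.add_le_add_iff_left (a := ENNReal.ofReal (x0 + 6 / 5 * r - (x0 - r)))
      (by simp)).1 (le_trans ?_ h4)
    rw [← ENNReal.ofReal_add (by linarith) hr.le, ← ENNReal.ofReal_add (by linarith) (by linarith)]
    exact ENNReal.ofReal_le_ofReal (by linarith)
  have hD0 : ∀ x, volume (D x) ≠ 0 := fun x => ((ENNReal.ofReal_pos.2 hr).trans_le (hD x)).ne'
  have hmeas : ∀ t, MeasurableSet t → Measurable fun x => volume (D x ∩ t) := fun t ht =>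
    measurable_measure_prodMk_left (ν := volume)
      (s := (Prod.snd ⁻¹' K ∩ (fun p : ℝ × ℝ => sg p.1 - p.2) ⁻¹' K) ∩ Prod.snd ⁻¹' t)
      (((hKm.preimage measurable_snd).inter (hKm.preimage (by fun_prop))).inter
        (ht.preimage measurable_snd))
  let κ : Kernel ℝ ℝ := ⟨fun x => cond volume (D x), Measure.measurable_of_measurable_coe _
    fun t ht => by
      simp only [cond_apply (hDm _)]
      have := hmeas univ MeasurableSet.univ
      simp only [inter_univ] at this
      exact this.inv.mul (hmeas t ht)⟩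
  have : IsMarkovKernel κ := ⟨fun x => cond_isProbabilityMeasure_of_finite (hD0 x) (hDfin x)⟩
  obtain ⟨f, hf, hfκ⟩ := κ.exists_measurable_map_eq_unitInterval
  obtain ⟨c, hc⟩ := ENNReal.exists_nat_gt (r := (ENNReal.ofReal r)⁻¹) (by simpa using hr)
  have key : ∀ x t, MeasurableSet t → volume {w : I | f x w ∈ t} ≤ c * volume (D x ∩ t) := by
    intro x t ht
    have : volume {w : I | f x w ∈ t} = κ x t := by
      rw [← hfκ, Measure.map_apply hf.of_uncurry_left ht]; rfl
    rw [this]
    refine (cond_apply (hDm x) volume t).le.trans (mul_le_mul_left ?_ _)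
    exact (ENNReal.inv_le_inv.2 (hD x)).trans hc.le
  refine ⟨2 * x0, r / 10, c * m, fun b p => if b then f p.1 p.2 else sg p.1 - f p.1 p.2,
    by positivity, fun b => ?_, fun b x s hs => ?_, fun x hx w => ?_⟩
  · cases b
    · exact (hsg.comp measurable_fst).sub hf
    · exact hf
  · rw [Nat.cast_mul, mul_assoc]
    cases b
    · refine (key x ((fun y => sg x - y) ⁻¹' s) (hs.preimage (by fun_prop))).trans
        (mul_le_mul_right (le_trans ?_ (hAm s hs)) _)
      rw [← (Measure.measurePreserving_sub_left volume (sg x)).measure_preimage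
        (hs.inter hA).nullMeasurableSet]
      exact measure_mono fun y hy => ⟨hy.2, hy.1.2.1⟩
    · refine (key x s hs).trans (mul_le_mul_right (le_trans ?_ (hAm s hs)) _)
      exact measure_mono fun y hy => ⟨hy.2, hy.1.1.1⟩
  · simp [sg, hx.1, hx.2]

abbrev Flex (L : ℕ) := Bool ⊕ (Fin L × Bool)

noncomputable def bit (L : ℕ) (q : Fin L × Bool) (t v : ℝ) : ℝ :=
  if ((q.1 : ℕ) + (if q.2 then L else 0) : ℕ) + v < t then 1 else 0

noncomputable def W (L : ℕ) : Flex L → ℝ × ℝ × ℝ → ℝ
  | .inl true, p => p.2.1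
  | .inl false, p => 1 - Int.fract (p.2.1 - p.1)
  | .inr q, p => bit L q p.1 p.2.1 + if q.2 then p.2.2 else 1 - p.2.2

theorem W_meas (L : ℕ) (j : Flex L) : Measurable (W L j) := by
  rcases j with (_ | _) | q
  · unfold W; fun_prop
  · unfold W; fun_prop
  · refine Measurable.add (Measurable.ite (measurableSet_lt (by fun_prop) (by fun_prop))
      measurable_const measurable_const) ?_
    cases q.2 <;> simp <;> fun_prop

theorem W_mem (L : ℕ) (j : Flex L) (t v w : ℝ) (hv : v ∈ Ico (0 : ℝ) 1) (hw : w ∈ Ico (0 : ℝ) 1) :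
    W L j (t, v, w) ∈ Icc (0 : ℝ) 2 := by
  rcases j with (_ | _) | q
  · simp only [W]
    constructor <;> linarith [Int.fract_nonneg (v - t), Int.fract_lt_one (v - t)]
  · simp only [W]
    constructor <;> linarith [hv.1, hv.2]
  · simp only [W, bit]
    split_ifs <;> constructor <;> linarith [hw.1, hw.2]

theorem sum_bit (L : ℕ) (t v : ℝ) (ht : t ∈ Icc (0 : ℝ) (2 * L)) (hv : v ∈ Ico (0 : ℝ) 1) :
    ∑ q, bit L q t v = Int.fract (v - t) + t - v := by
  have h1 : ∑ q, bit L q t v =
      ∑ i ∈ Finset.range (L + L), if ((i : ℕ) : ℝ) + v < t then (1 : ℝ) else 0 := by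
    rw [Finset.sum_range_add, Fintype.sum_prod_type, ← Finset.sum_add_distrib, Finset.sum_range]
    refine Finset.sum_congr rfl fun i _ => ?_
    rw [Fintype.sum_bool, add_comm]
    simp [bit, add_comm]
  have h2 : ((⌈t - v⌉₊ : ℕ) : ℝ) = Int.fract (v - t) + t - v := by
    rw [natCast_ceil_eq_intCast_ceil_of_neg_one_lt (by linarith [ht.1, hv.2]), Int.fract,
      show v - t = -(t - v) by ring, Int.floor_neg]
    push_cast; ring
  rw [h1, ← h2, Finset.sum_boole]
  congr 1
  rw [← Finset.card_range ⌈t - v⌉₊]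
  congr 1
  ext i
  simp only [Finset.mem_filter, Finset.mem_range, Nat.lt_ceil, lt_sub_iff_add_lt]
  refine ⟨fun h => h.2, fun h => ⟨?_, h⟩⟩
  have : (i : ℝ) < (L + L : ℕ) := by push_cast; linarith [ht.2, hv.1]
  exact_mod_cast this

theorem W_sum (L : ℕ) (t v w : ℝ) (ht : t ∈ Icc (0 : ℝ) (2 * L)) (hv : v ∈ Ico (0 : ℝ) 1) :
    ∑ j, W L j (t, v, w) = t + 1 + L := by
  rw [Fintype.sum_sum_type]
  simp only [W, Finset.sum_add_distrib, sum_bit L t v ht hv, Fintype.sum_prod_type,
    Fintype.sum_bool]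
  simp
  ring

theorem W_law (L : ℕ) (t : ℝ) (ht : t ∈ Icc (0 : ℝ) (2 * L)) (f : ℝ → ℝ≥0∞) (hf : Measurable f) :
    ∑ j, ∫⁻ p, f (W L j (t, p)) ∂(U.prod U) =
      ENNReal.ofReal t * ∫⁻ u, f (1 + u) ∂U + ENNReal.ofReal (2 * L - t) * ∫⁻ u, f u ∂U +
        2 * ∫⁻ u, f u ∂U := by
  have hb : ∀ q, Measurable (bit L q t) := fun q =>
    Measurable.ite (measurableSet_lt (by fun_prop) (by fun_prop)) measurable_const measurable_const
  have e1 : ∀ j, ∫⁻ p, f (W L j (t, p)) ∂(U.prod U) = ∫⁻ v, ∫⁻ w, f (W L j (t, v, w)) ∂U ∂U :=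
    fun j => lintegral_prod _ (hf.comp ((W_meas L j).comp measurable_prodMk_left)).aemeasurable
  have e2 : ∀ q v, ∫⁻ w, f (W L (.inr q) (t, v, w)) ∂U =
      ENNReal.ofReal (bit L q t v) * ∫⁻ u, f (1 + u) ∂U +
        ENNReal.ofReal (1 - bit L q t v) * ∫⁻ u, f u ∂U := by
    intro q v
    have : ∫⁻ w, f (W L (.inr q) (t, v, w)) ∂U = ∫⁻ w, f (bit L q t v + w) ∂U := by
      simp only [W]
      cases q.2
      · exact refl fun w => f (bit L q t v + w)
      · rfl
    rw [this]
    unfold bit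
    split_ifs <;> simp
  have hint : Integrable (fun v => ∑ q, bit L q t v) U :=
    integrable_finsetSum _ fun q _ => Integrable.of_bound (hb q).aestronglyMeasurable 1
      (Eventually.of_forall fun v => by unfold bit; split_ifs <;> simp)
  have hb0 : ∀ q v, 0 ≤ bit L q t v ∧ 0 ≤ 1 - bit L q t v := fun q v => by
    unfold bit; split_ifs <;> simp
  have hI : ∫ v, ∑ q, bit L q t v ∂U = t := by
    have i1 : Integrable (fun v : ℝ => v) U := Integrable.of_bound aestronglyMeasurable_id 1
      ((ae_restrict_mem measurableSet_Ico).mono fun v hv => by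
        rw [Real.norm_of_nonneg hv.1]; exact hv.2.le)
    have i2 : Integrable (fun v : ℝ => Int.fract (v - t)) U :=
      Integrable.of_bound (by fun_prop : Measurable fun v : ℝ => Int.fract (v - t)).aestronglyMeasurable
        1 (Eventually.of_forall fun v => by
          rw [Real.norm_of_nonneg (Int.fract_nonneg _)]; exact (Int.fract_lt_one _).le)
    have i3 : ∫ v, Int.fract (v - t) ∂U = ∫ v, v ∂U := by
      rw [integral_eq_lintegral_of_nonneg_ae (Eventually.of_forall fun v => Int.fract_nonneg _)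
        i2.1, integral_eq_lintegral_of_nonneg_ae (μ := U) (f := fun v : ℝ => v)
        ((ae_restrict_mem measurableSet_Ico).mono fun v hv => hv.1) i1.1, frac ENNReal.ofReal t]
    rw [integral_congr_ae ((ae_restrict_mem measurableSet_Ico).mono fun v hv =>
      sum_bit L t v ht hv), integral_sub
      (f := fun v => Int.fract (v - t) + t) (i2.add (integrable_const t)) i1,
      integral_add i2 (integrable_const t), i3]
    simp
  have s1 : ∑ q, ∫⁻ v, ENNReal.ofReal (bit L q t v) ∂U = ENNReal.ofReal t := by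
    rw [← lintegral_finsetSum _ fun q _ => (hb q).ennreal_ofReal]
    simp only [← ENNReal.ofReal_sum_of_nonneg fun q _ => (hb0 q _).1]
    rw [← ofReal_integral_eq_lintegral_ofReal hint
      (Eventually.of_forall fun v => Finset.sum_nonneg fun q _ => (hb0 q v).1), hI]
  have s2 : ∑ q, ∫⁻ v, ENNReal.ofReal (1 - bit L q t v) ∂U = ENNReal.ofReal (2 * L - t) := by
    rw [← lintegral_finsetSum _ fun q _ => ((hb q).const_sub 1).ennreal_ofReal]
    simp only [← ENNReal.ofReal_sum_of_nonneg fun q _ => (hb0 q _).2]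
    rw [← ofReal_integral_eq_lintegral_ofReal _
      (Eventually.of_forall fun v => Finset.sum_nonneg fun q _ => (hb0 q v).2)]
    · simp only [Finset.sum_sub_distrib]
      rw [integral_sub (integrable_const _) hint, hI]
      simp [mul_comm]
    · simp only [Finset.sum_sub_distrib]
      exact (integrable_const _).sub hint
  rw [Fintype.sum_sum_type, Fintype.sum_bool, add_comm]
  simp only [e1, e2]
  congr 1
  · rw [← s1, ← s2, Finset.sum_mul, Finset.sum_mul, ← Finset.sum_add_distrib]
    refine Finset.sum_congr rfl fun q _ => ?_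
    rw [lintegral_add_left ((hb q).ennreal_ofReal.mul_const _),
      lintegral_mul_const _ (hb q).ennreal_ofReal,
      lintegral_mul_const _ ((hb q).const_sub 1).ennreal_ofReal]
  · simp only [W, lintegral_const, measure_univ, mul_one]
    rw [frac (fun y => f (1 - y)) t, refl, two_mul]

end Pool.Agent.H.MP_bf37ff_pr
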